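import Mathlib
import Pool.Agent.Run7.h388.RM.DegB
import Pool.Agent.Run7.h388.RM.Cov
import Pool.Agent.Run7.h388.RM.Sure

set_option autoImplicit false

/-!
# Random degrees: ALL multiplicities at once

A random degree has a finitely supported distribution `μ`. `Always Q` says that all random numbers for which the exponential
sums `E e(θ d)` at certain finitely many irrational `θ` and the probability of small values are small have the property `Q`.
`Surely R` says that almost every path of every random walk on the integers whose steps are not almost constant, and almost every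
sequence of independent random numbers whose exponential sums at the irrational frequencies tend to zero and which do not concentrate
on a single number, has the property `R`.

A degree `d` is good for `n` if for EVERY multiplicity `m ≥ 1` the space of the forms of degree `d` with `n` general points of
multiplicity `m` has the expected dimension.

(1) With a probability of at least `0.0142` a random degree is good for EVERY `n ≥ 10`.

(2) With a probability of at least `0.931` it is good for `n = 10`, `11`, `13`, `15`, `21`, all `n ≥ 37` and all squares `n ≥ 16` at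
once, with a probability of at least `0.599` also for `n = 12`, `14`, and with a probability of at least `0.148` also for `n = 12`,
`14`, `17`, `18`, that is, for all `n = 10, 11, ..., 18` and all these larger `n`.

(3) For one `n ≥ 10` it is not good with a probability of at most `bad n + δ`, where `bad n < 0.24` for all `n`.

(4) (`CoversMore`) These bounds hold in particular for the random members of all intervals and all progressions of length `≥ L₀`,
for random numbers with `k ≥ k₀` independent digits, for positions of random walks, binomial laws, random members of very thin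
families of residues, and all large terms of all sequences of random numbers whose exponential sums at the irrational frequencies
tend to zero and which do not concentrate on a single number; an arbitrary independent random number can be added.

(5) Almost surely, along random walks and sequences of independent random degrees the same bounds hold for the frequencies.

Proof. The windows and the cells of the degrees are those of helper141 (`Pool.Agent.N141.SG.Deg`, `Deg2`), with the short windows of
`Pool.Agent.N388.EFW` for eleven and fifteen points; the theorem on boxes for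
random integers is `Pool.Agent.N794.DG` (starting tree). New (`Pool.Agent.Run7.h388.RM`): unions of boxes for random integers, one and
several numbers of points, random walks and almost sure statements.
-/

namespace Pool.Agent.Results.MP_d03834_ag.RandomDegrees

open MvPolynomial Filter
open Pool.Agent.N794.DG (Always meas)
open Pool.Agent.Run7.h388.RM (CoversMore Surely hits)

/-- For general points `P 1, …, P n` (outside the hypersurface `F = 0` of the space of all
configurations) the space of the forms of degree `d` which vanish to order at least `m` at all the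
points has the expected dimension. -/
def Expected (n m d : ℕ) : Prop :=
  ∃ F : MvPolynomial (Fin n × Fin 2) ℂ, F ≠ 0 ∧
    ∀ P : Fin n → Fin 2 → ℂ,
      MvPolynomial.eval (fun ij : Fin n × Fin 2 => P ij.1 ij.2) F ≠ 0 →
        Module.finrank ℂ
          ↥(MvPolynomial.homogeneousSubmodule (Fin 3) ℂ d ⊓
            Submodule.restrictScalars ℂ
              (⨅ i : Fin n,
                (Ideal.span
                  ({MvPolynomial.X 0 - MvPolynomial.C (P i 0) * MvPolynomial.X 2,
                    MvPolynomial.X 1 - MvPolynomial.C (P i 1) * MvPolynomial.X 2} :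
                    Set (MvPolynomial (Fin 3) ℂ))) ^ m))
        = Nat.choose (d + 2) 2 - n * Nat.choose (m + 1) 2

/-- The degree `d` is good for `n` points: EVERY multiplicity. -/
def Good (n d : ℕ) : Prop := ∀ m : ℕ, 1 ≤ m → Expected n m d

/-- The degree `d` is good for all numbers of points in the finite set `S` and for `n = 13`, `21`, `n ≥ 37` and all squares
`n ≥ 16`. -/
def GoodFor (S : Finset ℕ) (d : ℕ) : Prop :=
  ∀ n : ℕ, 10 ≤ n → (n ∈ S ∨ 37 ≤ n ∨ n = 13 ∨ n = 21 ∨ IsSquare n) → Good n d

open Classical in
/-- The bound for the proportion of the bad degrees for `n` points. -/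
noncomputable def bad (n : ℕ) : ℝ :=
  if 37 ≤ n ∨ n = 13 ∨ n = 21 ∨ IsSquare n then 0
  else if n = 11 ∨ n = 15 then (√(n : ℝ) - 3) ^ 2 / (2 * √(n : ℝ) * (√(n : ℝ) + 3))
  else (min (√(n : ℝ) - 3) (2 / 3 + 9 / (4 * √(n : ℝ))) +
    min (√(n : ℝ) - 3) (2 / 3 + 1 / (4 * √(n : ℝ)))) / (2 * √(n : ℝ))

theorem expected_of {n m d : ℕ} (h : ∃ F : MvPolynomial (Fin n × Fin 2) ℚ, F ≠ 0 ∧
    ∀ P : Fin n → Fin 2 → ℂ, MvPolynomial.aeval (fun ij : Fin n × Fin 2 => P ij.1 ij.2) F ≠ 0 →
      Pool.Agent.H932R3.ExpDim ℂ (fun _ => m) P d) : Expected n m d := by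
  obtain ⟨F, hF, hF'⟩ := h
  refine ⟨F.map (algebraMap ℚ ℂ), Pool.Agent.H932R3.map_ne_zero_of hF, fun P hP => ?_⟩
  rw [MvPolynomial.eval_map] at hP
  have h1 := hF' P hP
  unfold Pool.Agent.H932R3.ExpDim at h1
  rw [Finset.sum_const, Finset.card_univ, Fintype.card_fin, smul_eq_mul] at h1
  exact h1

theorem good_of {n d : ℕ} (hn : 10 ≤ n) (h : Pool.Agent.Run7.h388.RM.DegOk n d) : Good n d := fun _ hm =>
  expected_of (Pool.Agent.Run7.h388.RM.every_degOk h hn hm)

theorem all_of {d : ℕ} (h : Pool.Agent.N141.SG.DTgt d) : ∀ n : ℕ, 10 ≤ n → Good n d := fun _ hn _ hm =>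
  expected_of (Pool.Agent.N141.SG.every_deg h hn hm)

theorem goodFor_of {S : Finset ℕ} {d : ℕ}
    (h : ∀ n, n ∈ S ∨ Pool.Agent.Run7.h388.RM.Free n → Pool.Agent.Run7.h388.RM.DegOk n d) : GoodFor S d :=
  fun n hn h' => good_of hn (h n h')

theorem joint {S : Finset ℕ} {c : ℝ} (h : Always fun μ => c ≤ meas μ fun d =>
    ∀ n, n ∈ S ∨ Pool.Agent.Run7.h388.RM.Free n → Pool.Agent.Run7.h388.RM.DegOk n d) :
    Always fun μ => c ≤ meas μ (GoodFor S) :=
  h.mono fun _ hμ h1 => h1.trans (Pool.Agent.N794.DG.meas_mono hμ fun _ hd => goodFor_of hd)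

theorem always_all : Always fun μ => 0.0142 ≤ meas μ fun d => ∀ n : ℕ, 10 ≤ n → Good n d :=
  Pool.Agent.Run7.h388.RM.always_dtgt.mono fun _ hμ h1 =>
    h1.trans (Pool.Agent.N794.DG.meas_mono hμ fun _ hd => all_of hd)

theorem always_one {n : ℕ} (hn : 10 ≤ n) {δ : ℝ} (hδ : 0 < δ) :
    Always fun μ => meas μ (fun d => ¬ Good n d) ≤ bad n + δ :=
  (Pool.Agent.Run7.h388.RM.always_degOk hn hδ).mono fun _ hμ h =>
    (Pool.Agent.N794.DG.meas_mono hμ fun _ hm h1 => hm (good_of hn h1)).trans h

/-- **Main result.** -/
theorem result :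
    (Always fun μ => 0.0142 ≤ meas μ fun d => ∀ n : ℕ, 10 ≤ n → Good n d) ∧
    (Always fun μ => 0.931 ≤ meas μ (GoodFor {10, 11, 15})) ∧
    (Always fun μ => 0.599 ≤ meas μ (GoodFor {10, 11, 12, 14, 15})) ∧
    (Always fun μ => 0.148 ≤ meas μ (GoodFor {10, 11, 12, 14, 15, 17, 18})) ∧
    (∀ n : ℕ, 10 ≤ n → ∀ δ : ℝ, 0 < δ → Always fun μ => meas μ (fun d => ¬ Good n d) ≤ bad n + δ) ∧
    (∀ n : ℕ, 10 ≤ n → bad n < 0.24) ∧
    (bad 10 < 0.05132 ∧ bad 11 < 0.0024 ∧ bad 12 < 0.13398 ∧ bad 14 < 0.19822 ∧ bad 15 < 0.01432 ∧ bad 17 < 0.2244 ∧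
      bad 18 < 0.2266) ∧
    CoversMore ∧
    -- almost surely
    (Surely fun x =>
      (∀ᶠ K : ℕ in atTop, 0.0142 * K ≤ hits x (fun d => ∀ n : ℕ, 10 ≤ n → Good n d) K) ∧
      (∀ᶠ K : ℕ in atTop, 0.931 * K ≤ hits x (GoodFor {10, 11, 15}) K) ∧
      (∀ᶠ K : ℕ in atTop, 0.599 * K ≤ hits x (GoodFor {10, 11, 12, 14, 15}) K) ∧
      (∀ᶠ K : ℕ in atTop, 0.148 * K ≤ hits x (GoodFor {10, 11, 12, 14, 15, 17, 18}) K) ∧
      (∀ n : ℕ, 10 ≤ n → ∀ δ : ℝ, 0 < δ → ∀ᶠ K : ℕ in atTop, hits x (fun d => ¬ Good n d) K ≤ (bad n + δ) * K)) := by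
  have h1 := always_all
  have h2 := joint Pool.Agent.Run7.h388.RM.always_three
  have h3 := joint Pool.Agent.Run7.h388.RM.always_five
  have h4 := joint Pool.Agent.Run7.h388.RM.always_seven
  exact ⟨h1, h2, h3, h4, fun n hn δ hδ => always_one hn hδ, fun n hn => Pool.Agent.Run7.h388.RM.badDeg_lt hn,
    Pool.Agent.Run7.h388.RM.badDeg_vals, Pool.Agent.Run7.h388.RM.coversMore,
    (Pool.Agent.Run7.h388.RM.surely_ge h1).and ((Pool.Agent.Run7.h388.RM.surely_ge h2).and
      ((Pool.Agent.Run7.h388.RM.surely_ge h3).and ((Pool.Agent.Run7.h388.RM.surely_ge h4).and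
        (Pool.Agent.Run7.h388.RM.surely_ten fun n hn => Pool.Agent.Run7.h388.RM.surely_le fun δ hδ =>
          always_one hn hδ))))⟩

end Pool.Agent.Results.MP_d03834_ag.RandomDegrees
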