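import Mathlib
import Pool.Agent.Run7.h388.RM.Joint
import Pool.Agent.Run7.h388.RM.Sure

set_option autoImplicit false

/-!
# Good multiplicities along random walks, almost surely

`Surely R`: the property `R` of sequences of natural numbers holds

* for almost all paths `k ↦ c₀ + κ (X 0 + ... + X (k - 1))` of all random walks with independent steps `X i` each of which takes
  two fixed values `a ≠ b` with probabilities at least `η > 0` (the steps need not be identically distributed, bounded or of finite
  mean), for all `κ ≥ 1`, `c₀`;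
* for almost all sequences of independent random natural numbers `Y k` such that `P (Y k = m) → 0` for every `m` and
  `E e(θ Y k) → 0` for every irrational `θ`.

`hits x Q K` is the number of the `k < K` such that `x k` has the property `Q`.

**Theorem.** Almost surely the following is true for the sequence `x` of multiplicities.

(1) For all large `K`, at least `K / 10 ^ 65` of the first `K` multiplicities `m = x k` are good for ALL numbers of points at once: for
EVERY `n ≥ 10` and EVERY degree `d` the space of the forms of degree `d` with `n` general points of multiplicity `m` has the expected dimension.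

(2) For all large `K`, at least `0.815 K` of the first `K` multiplicities have this property for `n = 10`, `11`, `13`, `15`, `21`, all
squares `n ≥ 16` and all `n ≥ 37` at once.

(3) For every `n ≥ 10`, `δ > 0` and all large `K`, at most `(bad n + δ) K` of the first `K` multiplicities do not have the property for
`n`; `bad n < 1`, `bad 10 < 0.163`.

Proof. The windows of the plane systems are those of the starting tree (`Pool.Agent.N141.SG`, `Pool.Agent.TH885.NW`, and
`Pool.Agent.N388.EFW` for eleven and fifteen points), the deterministic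
criterion `Always` is `Pool.Agent.N794.DG`. New (`Pool.Agent.Run7.h388.RM`): the second moments of the exponential sums along a
random walk are `O(K)` at every irrational frequency, so the sums are `o(K)` almost surely (squares and interpolation), the path tends
to infinity, and the empirical distributions of almost every path have eventually all properties in the sense of `Always`.
-/

namespace Pool.Agent.Results.MP_d03834_ag.RandomWalkPaths

open MvPolynomial Filter
open Pool.Agent.Run7.h388.RM (Surely hits Most)

/-- For general points `P 1, …, P n` (outside the hypersurface `F = 0` of the space of all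
configurations) the space of the forms of degree `d` which vanish to order at least `m` at all the
points has the expected dimension, for every degree `d`. -/
def AllDegrees (n m : ℕ) : Prop :=
  ∃ F : MvPolynomial (Fin n × Fin 2) ℂ, F ≠ 0 ∧
    ∀ P : Fin n → Fin 2 → ℂ,
      MvPolynomial.eval (fun ij : Fin n × Fin 2 => P ij.1 ij.2) F ≠ 0 →
      ∀ d : ℕ,
        Module.finrank ℂ
          ↥(MvPolynomial.homogeneousSubmodule (Fin 3) ℂ d ⊓
            Submodule.restrictScalars ℂ
              (⨅ i : Fin n,
                (Ideal.span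
                  ({MvPolynomial.X 0 - MvPolynomial.C (P i 0) * MvPolynomial.X 2,
                    MvPolynomial.X 1 - MvPolynomial.C (P i 1) * MvPolynomial.X 2} :
                    Set (MvPolynomial (Fin 3) ℂ))) ^ m))
        = Nat.choose (d + 2) 2 - n * Nat.choose (m + 1) 2

/-- The conjecture holds for the multiplicity `m ≥ 1`: for every number `n ≥ 10` of points and every
degree. -/
def Holds (m : ℕ) : Prop := 1 ≤ m ∧ ∀ n : ℕ, 10 ≤ n → AllDegrees n m

open Classical in
/-- The bound for the frequency of the bad multiplicities for `n` points. -/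
noncomputable def bad (n : ℕ) : ℝ :=
  if 37 ≤ n ∨ n = 13 ∨ n = 21 ∨ IsSquare n then 0
  else if n = 11 ∨ n = 15 then (√(n : ℝ) - 3) ^ 2 / (6 * (√(n : ℝ) + 3))
  else (min (√(n : ℝ) - 3) (2 / 3 + 9 / (4 * √(n : ℝ))) +
    min (√(n : ℝ) - 3) (2 / 3 + 1 / (4 * √(n : ℝ)))) / 2

theorem allDegrees_of {n m : ℕ} (h : Pool.Agent.N141.SG.Ex n m) : AllDegrees n m := by
  obtain ⟨F, hF, hF'⟩ := h
  refine ⟨F.map (algebraMap ℚ ℂ), Pool.Agent.H932R3.map_ne_zero_of hF, fun P hP d => ?_⟩
  rw [MvPolynomial.eval_map] at hP
  have h1 := hF' P hP d
  unfold Pool.Agent.H932R3.ExpDim at h1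
  rw [Finset.sum_const, Finset.card_univ, Fintype.card_fin, smul_eq_mul] at h1
  exact h1

theorem holds_of {m : ℕ} (hm : 1 ≤ m) (h : Pool.Agent.N141.SG.Tgt (m : ℕ)) : Holds m :=
  ⟨hm, fun _ hn => allDegrees_of (Pool.Agent.N141.SG.every h hm hn)⟩

/-- **Main result.** -/
theorem result :
    (Surely fun x => ∀ᶠ K : ℕ in atTop, 1 / 10 ^ 65 * K ≤ hits x Holds K) ∧
    (Surely fun x => ∀ᶠ K : ℕ in atTop,
      0.815 * K ≤ hits x (fun m => 1 ≤ m ∧ ∀ n : ℕ, 10 ≤ n → Most n → AllDegrees n m) K) ∧
    (Surely fun x => ∀ n : ℕ, 10 ≤ n → ∀ δ : ℝ, 0 < δ → ∀ᶠ K : ℕ in atTop,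
      hits x (fun m => ¬ AllDegrees n m) K ≤ (bad n + δ) * K) ∧
    (∀ n : ℕ, 10 ≤ n → bad n < 1) ∧
    (bad 10 < 0.163 ∧ bad 11 < 0.0027 ∧ bad 12 < 0.465 ∧ bad 14 < 0.738 ∧ bad 15 < 0.0185) := by
  refine ⟨?_, ?_, ?_, fun n hn => Pool.Agent.Run7.h388.RM.badS_lt hn, Pool.Agent.Run7.h388.RM.badS_vals⟩
  · exact Pool.Agent.Run7.h388.RM.surely_ge (Pool.Agent.N794.DG.always_tgt.mono fun μ hμ h =>
      h.trans (Pool.Agent.N794.DG.meas_mono hμ fun m hm => holds_of hm.1 hm.2))
  · exact Pool.Agent.Run7.h388.RM.surely_ge (Pool.Agent.Run7.h388.RM.always_most.mono fun μ hμ h =>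
      h.trans (Pool.Agent.N794.DG.meas_mono hμ fun m hm => ⟨hm.1, fun n hn hmost => allDegrees_of (hm.2 n hn hmost)⟩))
  · exact Pool.Agent.Run7.h388.RM.surely_ten fun n hn => Pool.Agent.Run7.h388.RM.surely_le fun δ hδ =>
      (Pool.Agent.Run7.h388.RM.always_sharp hn hδ).mono fun μ hμ h =>
        (Pool.Agent.N794.DG.meas_mono hμ fun m hm h1 => hm (allDegrees_of h1)).trans h

end Pool.Agent.Results.MP_d03834_ag.RandomWalkPaths
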